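import Pool.Agent.KS6_64.SD.Cnt
import Pool.Agent.KS6_64.SD.Poly

set_option autoImplicit false

namespace Pool.Agent.Results.MP_a342dd_al.ManyLeadingCoefficients

open MvPolynomial Finset Filter Pool.Agent.KS6_64.SD

universe u

/-- The `n`-th symbolic power, over all associated primes. -/
noncomputable def symbPow {R : Type u} [CommRing R] (I : Ideal R) (n : ℕ) : Ideal R :=
  ⨅ (P : PrimeSpectrum R) (_ : P.asIdeal ∈ associatedPrimes R (R ⧸ I)),
    ((I ^ n).map (algebraMap R (Localization.AtPrime P.asIdeal))).comap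
      (algebraMap R (Localization.AtPrime P.asIdeal))

/-- The symbolic defect: the dimension of `I^(n) / (I ^ n + m I^(n))`, where `m` is the ideal of
the variables. -/
noncomputable def sdef (k : Type u) [Field k] {σ : Type} (I : Ideal (MvPolynomial σ k))
    (n : ℕ) : ℕ :=
  Module.finrank k (symbPow I n ⧸ Submodule.submoduleOf
    (I ^ n ⊔ Ideal.span (Set.range X) * symbPow I n) (symbPow I n))

/-- The exponents of the monomials of the ideal. The variables are `x`, with the index `none`, and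
`y_i`, with the index `some i`, for `i = 0, …, p - 1`. -/
def Expo (p D : ℕ) : Set (Option (Fin p) →₀ ℕ) :=
  {m | ∀ i : Fin p, (i : ℕ) * (D + 1) ≤ m none + i * m (some i) ∧
    i + p * D ≤ m none + p * m (some i)}

/-- The monomial ideal of `k[x, y_0, …, y_{p-1}]`. -/
noncomputable def idl (k : Type u) [Field k] (p D : ℕ) :
    Ideal (MvPolynomial (Option (Fin p)) k) :=
  Ideal.span ((fun m => monomial m (1 : k)) '' Expo p D)

/-- `P 0, …, P (q - 1)` are the branches of the eventual quasi-polynomial `f`. -/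
def IsBranches (f : ℕ → ℕ) (q : ℕ) (P : ℕ → Polynomial ℚ) : Prop :=
  0 < q ∧ ∃ N, ∀ n, N ≤ n → (f n : ℚ) = (P (n % q)).eval (n : ℚ)

section defect

variable {k : Type u} [Field k] {p D : ℕ}

lemma idl_eq : idl k p D = MI k (E p D 1) := by
  rw [idl, MI]
  congr 2
  ext m
  simp [Expo, E, F]

lemma symb_eq (hD : 1 ≤ D) (n : ℕ) : symbPow (idl k p D) n = MI k (E p D n) := by
  have key := fun f => symbolic (k := k) (Gv p) (F p D 1) (F p D n) n (p * (D + 1))
    (fun e => F_pow p D e n) (F_dep p D 1) (F_dep p D n) (F_single hD) (F_sub hD) Gv_inj f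
  have ass := ass_eq (k := k) (Gv p) (F p D 1) (p * (D + 1)) (F_dep p D 1) (F_single hD) Gv_inj
  rw [idl_eq]
  ext f
  refine Iff.trans ?_ (key f).symm
  rw [symbPow]
  simp only [Ideal.mem_iInf, Ideal.mem_comap]
  constructor
  · intro h3 P hP
    have hP' := hP.1.1
    have hP2 : P ∈ associatedPrimes (MvPolynomial (Option (Fin p)) k)
      (MvPolynomial (Option (Fin p)) k ⧸ MI k (E p D 1)) := ass ▸ hP
    exact (IsLocalization.algebraMap_mem_map_algebraMap_iff P.primeCompl _ _ f).1
      (h3 ⟨P, hP'⟩ hP2)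
  · intro h3 P hP
    have hP2 : P.asIdeal ∈ (MI k {m | ∀ e, m ∈ F p D 1 e}).minimalPrimes := ass ▸ hP
    exact (IsLocalization.algebraMap_mem_map_algebraMap_iff P.asIdeal.primeCompl _ _ f).2
      (h3 _ hP2)

lemma sdef_eq (hD : 1 ≤ D) (n : ℕ) : sdef k (idl k p D) n = #(B_fin p D n).toFinset := by
  have e : ∀ A A' : Ideal (MvPolynomial (Option (Fin p)) k), A = A' →
      Module.finrank k (A ⧸ Submodule.submoduleOf
        (idl k p D ^ n ⊔ Ideal.span (Set.range X) * A) A) =
      Module.finrank k (A' ⧸ Submodule.submoduleOf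
        (idl k p D ^ n ⊔ Ideal.span (Set.range X) * A') A') := by
    rintro _ _ rfl
    rfl
  refine (e _ _ (symb_eq hD n)).trans ?_
  rw [idl_eq, pow_eq, mul_eq, ← MI_union]
  exact rank_quot (E_up p D n) (union_up p D n) _ fun m => by
    rw [Set.Finite.mem_toFinset]
    rfl

lemma bounds (hp : 2 ≤ p) (hD : 1 ≤ D) {n : ℕ} (hn : 2 * p ≤ n) :
    p / p.gcd n * ((D - 1) * n) ≤ sdef k (idl k p D) n ∧
      sdef k (idl k p D) n ≤ p / p.gcd n * (D * n) + (p - 1) * n + 1 := by
  rw [sdef_eq hD]
  refine ⟨?_, card_le (by omega)⟩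
  obtain ⟨D, rfl⟩ : ∃ D', D = D' + 1 := ⟨D - 1, by omega⟩
  exact le_card hp hn

end defect

variable {k : Type u} [Field k]

lemma branch {p D q : ℕ} (hp : 2 ≤ p) (hD : 1 ≤ D) {P : ℕ → Polynomial ℚ}
    (h : IsBranches (sdef k (idl k p D)) q P) {g : ℕ} (hg : g ∣ p) :
    ((p / g * (D - 1) : ℕ) : ℚ) ≤ (P (g % q)).coeff 1 ∧
      (P (g % q)).coeff 1 ≤ ((p / g * D + (p - 1) : ℕ) : ℚ) := by
  obtain ⟨hq, N₀, hN₀⟩ := h
  refine (poly_lin (P (g % q)) _ _ 1 (by positivity) fun N => ?_).2
  have hqp : 1 ≤ q * p := Nat.mul_pos hq (by omega)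
  refine ⟨g + p * (q * (N + N₀ + 2 * p)), ?_, ?_⟩
  · nlinarith [Nat.le_mul_of_pos_left (N + N₀ + 2 * p) hqp]
  have hgcd : p.gcd (g + p * (q * (N + N₀ + 2 * p))) = g := by
    rw [Nat.gcd_add_mul_left_right]
    exact Nat.gcd_eq_right hg
  have hmod : (g + p * (q * (N + N₀ + 2 * p))) % q = g % q := by
    rw [show p * (q * (N + N₀ + 2 * p)) = q * (p * (N + N₀ + 2 * p)) by ring,
      Nat.add_mul_mod_self_left]
  have hge : N + N₀ + 2 * p ≤ g + p * (q * (N + N₀ + 2 * p)) := by
    nlinarith [Nat.le_mul_of_pos_left (N + N₀ + 2 * p) hqp]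
  have hb := bounds (k := k) hp hD (n := g + p * (q * (N + N₀ + 2 * p))) (by omega)
  have he := hN₀ (g + p * (q * (N + N₀ + 2 * p))) (by omega)
  rw [hmod] at he
  rw [hgcd] at hb
  rw [← he]
  generalize g + p * (q * (N + N₀ + 2 * p)) = n at hb ⊢
  constructor
  · have := hb.1
    rw [← mul_assoc] at this
    exact_mod_cast this
  · have := hb.2
    rw [← mul_assoc, ← add_mul] at this
    exact_mod_cast this

/-- **Arbitrarily many different leading coefficients.** Let `k` be a field, `p ≥ 2`, and let `I`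
be the monomial ideal `idl k p D` of `k[x, y_0, …, y_{p-1}]`, where `D ≥ 1`. (1) For all
`n ≥ 2 p` the symbolic defect `sdef_I(n)` is between `d (D - 1) n` and
`d D n + (p - 1) n + 1`, where `d = p / gcd(p, n)`. (2) Let `D = 2 p`, and let `P 0, …, P (q - 1)`
be the branches of the eventual quasi-polynomial `sdef_I`, for any period `q`. All branches have
degree at most one, their coefficients of `t` take at least as many values as `p` has divisors, and
one of these coefficients is at least `p / 2` times another one, which is positive. -/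
theorem result (k : Type u) [Field k] (p : ℕ) (hp : 2 ≤ p) :
    (∀ D n : ℕ, 1 ≤ D → 2 * p ≤ n →
      p / p.gcd n * ((D - 1) * n) ≤ sdef k (idl k p D) n ∧
      sdef k (idl k p D) n ≤ p / p.gcd n * (D * n) + (p - 1) * n + 1) ∧
    ∀ (q : ℕ) (P : ℕ → Polynomial ℚ), IsBranches (sdef k (idl k p (2 * p))) q P →
      (∀ i < q, (P i).natDegree ≤ 1) ∧
      #p.divisors ≤ #((range q).image fun i => (P i).coeff 1) ∧
      ∃ i < q, ∃ j < q, 0 < (P j).coeff 1 ∧ p * (P j).coeff 1 ≤ 2 * (P i).coeff 1 := by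
  refine ⟨fun D n hD hn => bounds hp hD hn, fun q P h => ?_⟩
  have hD : 1 ≤ 2 * p := by omega
  have hq := h.1
  have hbr := fun (g : ℕ) (hg : g ∣ p) => branch hp hD h hg
  refine ⟨fun i hi => ?_, ?_, ?_⟩
  · obtain ⟨-, N₀, hN₀⟩ := h
    refine (poly_lin (P i) 0 ((p * (2 * p) + (p - 1) : ℕ) : ℚ) 1 le_rfl fun N => ?_).1
    have h1 : N + N₀ + 2 * p ≤ q * (N + N₀ + 2 * p) := Nat.le_mul_of_pos_left _ hq
    refine ⟨i + q * (N + N₀ + 2 * p), by omega, ?_⟩
    have he := hN₀ (i + q * (N + N₀ + 2 * p)) (by omega)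
    rw [Nat.add_mul_mod_self_left, Nat.mod_eq_of_lt hi] at he
    have hb := (bounds (k := k) hp hD (n := i + q * (N + N₀ + 2 * p)) (by omega)).2
    rw [← he]
    generalize i + q * (N + N₀ + 2 * p) = n at hb ⊢
    constructor
    · rw [zero_mul]
      positivity
    · have h2 : p / p.gcd n * (2 * p * n) ≤ p * (2 * p * n) :=
        Nat.mul_le_mul_right _ (Nat.div_le_self _ _)
      have h3 : sdef k (idl k p (2 * p)) n ≤ (p * (2 * p) + (p - 1)) * n + 1 := by
        rw [add_mul, mul_assoc p (2 * p) n]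
        omega
      exact_mod_cast h3
  · have hinj : Set.InjOn (fun g => (P (g % q)).coeff 1) (p.divisors : Set ℕ) := by
      have key : ∀ g ∈ p.divisors, ∀ g' ∈ p.divisors, g < g' →
          (P (g' % q)).coeff 1 < (P (g % q)).coeff 1 := by
        intro g hg g' hg' hlt
        have h1 := Nat.dvd_of_mem_divisors hg
        have h2 := Nat.dvd_of_mem_divisors hg'
        refine (hbr g' h2).2.trans_lt (lt_of_lt_of_le ?_ (hbr g h1).1)
        have hp0 : 0 < p := by omega
        have hg0 : 0 < g := Nat.pos_of_dvd_of_pos h1 hp0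
        have e1 : g * (p / g) = p := Nat.mul_div_cancel' h1
        have e2 : g' * (p / g') = p := Nat.mul_div_cancel' h2
        have e3 : p / g ≤ p := Nat.div_le_self _ _
        have e4 : p / g' < p / g := by
          by_contra hle
          push Not at hle
          have : g * (p / g) < g' * (p / g') := by
            have h5 : 0 < p / g' := Nat.pos_of_ne_zero fun h0 => by rw [h0] at e2; omega
            calc g * (p / g) ≤ g * (p / g') := Nat.mul_le_mul_left _ hle
              _ < g' * (p / g') := Nat.mul_lt_mul_of_pos_right hlt h5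
          omega
        have h6 : p / g' * (2 * p) + (p - 1) < p / g * (2 * p - 1) := by
          obtain ⟨s, hs⟩ : ∃ s, 2 * p - 1 = s := ⟨_, rfl⟩
          have hs' : 2 * p = s + 1 := by omega
          rw [hs, hs']
          have : (p / g' + 1) * s ≤ p / g * s := Nat.mul_le_mul_right _ e4
          rw [add_mul, one_mul] at this
          rw [mul_add, mul_one]
          omega
        exact_mod_cast h6
      intro g hg g' hg' hgg
      rcases lt_trichotomy g g' with hlt | heq | hlt
      · exact absurd hgg (key g (by simpa using hg) g' (by simpa using hg') hlt).ne'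
      · exact heq
      · exact absurd hgg (key g' (by simpa using hg') g (by simpa using hg) hlt).ne
    rw [← Finset.card_image_of_injOn hinj]
    refine Finset.card_le_card fun c hc => ?_
    obtain ⟨g, -, rfl⟩ := Finset.mem_image.1 hc
    exact Finset.mem_image.2 ⟨g % q, Finset.mem_range.2 (Nat.mod_lt _ hq), rfl⟩
  · have h1 := (hbr 1 (one_dvd p)).1
    have h2 := hbr p dvd_rfl
    rw [Nat.div_one] at h1
    rw [Nat.div_self (by omega), one_mul, one_mul] at h2
    refine ⟨1 % q, Nat.mod_lt _ hq, p % q, Nat.mod_lt _ hq, ?_, ?_⟩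
    · refine lt_of_lt_of_le ?_ h2.1
      have : 0 < 2 * p - 1 := by omega
      exact_mod_cast this
    · have h3 : (p : ℚ) * ((2 * p + (p - 1) : ℕ) : ℚ) ≤ 2 * ((p * (2 * p - 1) : ℕ) : ℚ) := by
        have : p * (2 * p + (p - 1)) ≤ 2 * (p * (2 * p - 1)) := by
          rw [mul_left_comm]
          exact Nat.mul_le_mul_left _ (by omega)
        exact_mod_cast this
      have h4 : (p : ℚ) * (P (p % q)).coeff 1 ≤ p * ((2 * p + (p - 1) : ℕ) : ℚ) :=
        mul_le_mul_of_nonneg_left h2.2 (by positivity)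
      linarith

end Pool.Agent.Results.MP_a342dd_al.ManyLeadingCoefficients
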